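import Pool.Agent.Y423.LA.Odd

set_option autoImplicit false

/-!
# The linear arboricity conjecture for Cartesian products without dominating factor

`H931R3.LA.la G` is the linear arboricity (the same expression as in the frozen statement S07085).
`P` is the Cartesian product of the finite graphs `G i`, `G i` is regular of degree `r i ≤ R`, and
`D`, the sum of the `r i`, is the degree of `P`.  Nothing is assumed about the linear arboricity of
the factors.
-/

namespace Pool.Agent.Results.MP_0a041d_co.BalancedProducts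

open SimpleGraph Finset H931R3.LA Pool.Agent.Y423.LA

theorem log_ge {R : ℕ} (hR1 : 1 ≤ R) : 1 ≤ (R : ℝ) * Real.log (156 * R) := by
  have hR : (1 : ℝ) ≤ R := by exact_mod_cast hR1
  have h1 : Real.log 4 ≤ Real.log (156 * R) :=
    Real.log_le_log (by norm_num) (by linarith)
  have h2 : Real.log 4 = 2 * Real.log 2 := by
    rw [show (4 : ℝ) = 2 ^ 2 by norm_num, Real.log_pow]
    norm_num
  have h3 := Real.log_two_gt_d9
  nlinarith

theorem result :
    ∀ (ι : Type) [Fintype ι] (V : ι → Type) [∀ i, Finite (V i)] [∀ i, Nonempty (V i)]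
      (G : ∀ i, SimpleGraph (V i)) (P : SimpleGraph (∀ i, V i)) (r : ι → ℕ) (R : ℕ),
      (∀ x y, P.Adj x y ↔ ∃ i, (G i).Adj (x i) (y i) ∧ ∀ j, j ≠ i → x j = y j) →
      (∀ i v, ((G i).neighborSet v).ncard = r i) → (∀ i, r i ≤ R) → 0 < ∑ i, r i →
      (∀ x, (P.neighborSet x).ncard = ∑ i, r i) ∧
      (53 * (R : ℝ) * Real.log (156 * R) ≤ ∑ i, (r i : ℝ) →
        la P = (∑ i, r i + 2) / 2 ∧
        ∀ (W : Type) [Finite W] [Nonempty W] (K : SimpleGraph W) (s : ℕ),
          (∀ w, (K.neighborSet w).ncard = s) → 0 < s → s ≤ ∑ i, r i + 2 →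
          (Even s ∨ Odd (∑ i, r i)) → la (K.boxProd P) = (s + ∑ i, r i + 2) / 2) ∧
      (Even (∑ i, r i) → 8 * (R : ℝ) * Real.log (4 * R) ≤ ∑ i, (r i : ℝ) →
        la P = (∑ i, r i + 2) / 2) ∧
      ((∀ i, Even (r i)) → ∀ g j : ℕ, 1 ≤ g →
        (∀ i (v : V i) (c : (G i).Walk v v), c.IsCycle → g ≤ c.length) →
        2 ^ j * R ≤ ∑ i, r i → ∑ i, r i ≤ g ^ 2 ^ j → la P = (∑ i, r i + 2) / 2) := by
  intro ι _ V _ _ G P r R hP hdeg hR hD
  have hPe : P = piG G := by
    ext x y
    rw [hP, piG_adj]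
  subst hPe
  have hreg : ∀ x, ((piG G).neighborSet x).ncard = ∑ i, r i := fun x => by
    rw [piG_deg]
    exact sum_congr rfl fun i _ => hdeg _ _
  have hR1 : 1 ≤ R := by
    by_contra hcon
    have : ∑ i, r i = 0 := sum_eq_zero fun i _ => by have := hR i; omega
    omega
  have hRr : (1 : ℝ) ≤ R := by exact_mod_cast hR1
  have heven : Even (∑ i, r i) → 8 * (R : ℝ) * Real.log (4 * R) ≤ ∑ i, (r i : ℝ) →
      la (piG G) = (∑ i, r i + 2) / 2 := by
    intro hev h
    obtain ⟨j, h1, h2⟩ := exists_exp 1 (2 * R) (∑ i, r i) le_rfl (by omega) (by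
      push_cast
      have e : (2 : ℝ) * 1 * (2 * R) = 4 * R := by ring
      rw [e]
      linarith)
    rw [one_mul] at h2
    exact la_of_long hD hev hreg (long_any G r R j hdeg hev hR h1) h2
  have hmain : 53 * (R : ℝ) * Real.log (156 * R) ≤ ∑ i, (r i : ℝ) →
      la (piG G) = (∑ i, r i + 2) / 2 := by
    intro h
    have hl := log_ge hR1
    rcases Nat.even_or_odd (∑ i, r i) with hev | hodd
    · refine heven hev (le_trans ?_ h)
      have h1 : Real.log (4 * R) ≤ Real.log (156 * R) :=
        Real.log_le_log (by linarith) (by linarith)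
      nlinarith
    · obtain ⟨j, h1, h2⟩ := exists_exp 6 (13 * R) (∑ i, r i - 1) (by norm_num) (by omega) (by
        rw [Nat.cast_sub hD]
        push_cast
        have e : (2 : ℝ) * 6 * (13 * R) = 156 * R := by ring
        rw [e]
        linarith)
      exact odd_all G r R j hR1 hdeg hodd hR h1 (by omega)
  refine ⟨hreg, ?_, heven, ?_⟩
  · intro h
    refine ⟨hmain h, ?_⟩
    intro W _ _ K s hK hs hsD hpar
    have h1 := la_one_factor K (piG G) s (∑ i, r i) hD hK hreg (hmain h) hpar
    have h2 := la_greedy K s (fun v => (hK v).le)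
    refine h1.trans ?_
    omega
  · intro hev g j hg1 hg h1 h2
    exact la_of_long hD (even_sum _ fun i _ => hev i) hreg
      (long_even G r R g j hdeg hev hR hg1 hg h1) h2

end Pool.Agent.Results.MP_0a041d_co.BalancedProducts
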