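import Pool.Agent.Y647.LAC.Even
import Pool.Agent.TH486.LAC.Lift

set_option autoImplicit false

/-!
# Linear arboricity of the circulant graphs of even degree and of their covers

`H931R3.LA.la G` is the linear arboricity (the same expression as in the frozen statement S07085).
-/

namespace Pool.Agent.Results.MP_0a041d_co.Circulants

open SimpleGraph H931R3.LA Pool.Agent.W111.LAR Pool.Agent.TH486.LAC Pool.Agent.Y647.LAC

/-- The linear arboricity conjecture holds for every circulant graph (Cayley graph of a finite
cyclic group `ℤ/n`) whose connection set `S` contains no involution, that is, for every circulant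
graph of even degree, and for all its finite covers. More generally, a finite graph with a locally
injective homomorphism to such a circulant graph has linear arboricity at most `|S| / 2 + 1`. -/
theorem result :
    ∀ (n : ℕ) [NeZero n] (S : Set (ZMod n)) (X : SimpleGraph (ZMod n)),
      (∀ v w, X.Adj v w ↔ w - v ∈ S) → S.Nonempty → (∀ s ∈ S, s + s ≠ 0) →
      (∀ v, (X.neighborSet v).ncard = S.ncard) ∧
      la X = (S.ncard + 2) / 2 ∧
      ∀ (W : Type) [Finite W] [Nonempty W] (G : SimpleGraph W) (f : W → ZMod n),
        (∀ a b, G.Adj a b → X.Adj (f a) (f b)) →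
        (∀ a b c, G.Adj a b → G.Adj a c → f b = f c → b = c) →
        la G ≤ (S.ncard + 2) / 2 ∧
          ((∀ a, (G.neighborSet a).ncard = S.ncard) → la G = (S.ncard + 2) / 2) := by
  intro n _ S0 X hX hne hinv
  classical
  have hfin : S0.Finite := Set.toFinite S0
  obtain ⟨S, rfl⟩ := hfin.exists_finset_coe
  rw [Set.ncard_coe_finset]
  have hS : S.Nonempty := by exact_mod_cast hne
  have hX' : ∀ v w, X.Adj v w ↔ w - v ∈ S := by
    intro v w
    rw [hX, Finset.mem_coe]
  have hneg : ∀ x ∈ S, -x ∈ S := by
    intro x hx
    have h1 : X.Adj 0 x := (hX' 0 x).2 (by rwa [sub_zero])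
    have h2 := (hX' x 0).1 h1.symm
    rwa [zero_sub] at h2
  have hLD := ld_even n S hneg (fun s hs => hinv s (by exact_mod_cast hs)) X hX'
  have hdeg := cay_deg_add' S X hX'
  have h2 : (S.card + 2) / 2 = S.card / 2 + 1 := by omega
  have hmain : ∀ (W : Type) [Finite W] [Nonempty W] (G : SimpleGraph W) (f : W → ZMod n),
        (∀ a b, G.Adj a b → X.Adj (f a) (f b)) →
        (∀ a b c, G.Adj a b → G.Adj a c → f b = f c → b = c) →
        la G ≤ (S.card + 2) / 2 ∧
          ((∀ a, (G.neighborSet a).ncard = S.card) → la G = (S.card + 2) / 2) := by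
    intro W _ _ G f hom inj
    have h1 := hLD.lift G f hom inj
    rw [← h2] at h1
    exact ⟨la_le h1, fun hreg => la_eq_of_cov hS.card_pos hreg h1⟩
  exact ⟨hdeg, (hmain (ZMod n) X id (fun a b h => h) (fun a b c _ _ h => h)).2 hdeg, hmain⟩

end Pool.Agent.Results.MP_0a041d_co.Circulants
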