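import Pool.Agent.Y59.LA.Comm2

set_option autoImplicit false

/-!
# Linear arboricity of Cayley graphs with commuting generators

`H931R3.LA.la G` is the linear arboricity (the same expression as in the frozen statement S07085).
-/

namespace Pool.Agent.Results.MP_0a041d_co.CommutingPairs

open SimpleGraph H931R3.LA Pool.Agent.W111.LAR Pool.Agent.TH486.LAC Pool.Agent.Y59.LA

/-- Let `X` be the Cayley graph of a finite group with a nonempty connection set `S` of elements of
odd order. The linear arboricity conjecture holds for `X` and for all its finite covers in each of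
the following cases.
(1) There is an involution `σ` of `S` commuting with inversion such that `s` and `σ s` commute and
the reciprocals of the orders of the subgroups generated by `s` and `σ s` sum up to at most `1`.
(2) The elements of `S` commute, and for some `L`, `m` all of them have order at least `m`, each of
them generates a subgroup of order less than `L` together with at most `|S| / 2 + 1` elements of
`S`, and `(|S| - 2) / L + 2 / m ≤ 1`.
(3) The elements of `S` commute, and for some `p ≥ 3` all prime factors of the order of the group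
are at least `p` and `|S| ≤ (p - 1) ^ 2 + 1`. -/
theorem result :
    ∀ (Γ : Type) [Group Γ] [Finite Γ] (S : Finset Γ) (X : SimpleGraph Γ),
      (∀ g h, X.Adj g h ↔ g⁻¹ * h ∈ S) → S.Nonempty → (∀ s ∈ S, Odd (orderOf s)) →
      ((∃ σ : Γ → Γ,
          (∀ s ∈ S, σ s ∈ S ∧ σ (σ s) = s ∧ σ s⁻¹ = (σ s)⁻¹ ∧ Commute s (σ s)) ∧
          ∑ s ∈ S, (1 : ℝ) / Nat.card (Subgroup.closure {s, σ s} : Subgroup Γ) ≤ 1) ∨
        ((∀ s ∈ S, ∀ t ∈ S, Commute s t) ∧ ∃ L m : ℕ, 0 < m ∧ m ≤ L ∧
          (∀ s ∈ S, m ≤ orderOf s) ∧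
          (∀ s ∈ S, {t : Γ | t ∈ S ∧
            Nat.card (Subgroup.closure {s, t} : Subgroup Γ) < L}.ncard ≤ S.card / 2 + 1) ∧
          ((S.card : ℝ) - 2) / L + 2 / m ≤ 1) ∨
        ((∀ s ∈ S, ∀ t ∈ S, Commute s t) ∧ ∃ p : ℕ, 3 ≤ p ∧
          (∀ q : ℕ, q.Prime → q ∣ Nat.card Γ → p ≤ q) ∧ S.card ≤ (p - 1) ^ 2 + 1)) →
      la X = (S.card + 2) / 2 ∧
      ∀ (W : Type) [Finite W] [Nonempty W] (G : SimpleGraph W) (f : W → Γ),
        (∀ a b, G.Adj a b → X.Adj (f a) (f b)) →
        (∀ a b c, G.Adj a b → G.Adj a c → f b = f c → b = c) →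
        la G ≤ (S.card + 2) / 2 ∧
          ((∀ a, (G.neighborSet a).ncard = S.card) → la G = (S.card + 2) / 2) := by
  intro Γ _ _ S X hX hS hodd hcases
  have hLD : LD X (S.card / 2) := by
    rcases hcases with ⟨σ, hσ, hload⟩ | ⟨hc, L, m, h1, h2, h3, h4, h5⟩ | ⟨hc, p, h1, h2, h3⟩
    · exact ld_sigma S X hX hodd σ hσ hload
    · exact ld_dirac S X hX hodd hc L m h1 h2 h3 h4 h5
    · exact ld_small S X hX hc p h1 h2 h3
  have h2 : (S.card + 2) / 2 = S.card / 2 + 1 := by omega
  have hmain : ∀ (W : Type) [Finite W] [Nonempty W] (G : SimpleGraph W) (f : W → Γ),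
        (∀ a b, G.Adj a b → X.Adj (f a) (f b)) →
        (∀ a b c, G.Adj a b → G.Adj a c → f b = f c → b = c) →
        la G ≤ (S.card + 2) / 2 ∧
          ((∀ a, (G.neighborSet a).ncard = S.card) → la G = (S.card + 2) / 2) := by
    intro W _ _ G f hom inj
    have h1 := hLD.lift G f hom inj
    rw [← h2] at h1
    exact ⟨la_le h1, fun hreg => la_eq_of_cov hS.card_pos hreg h1⟩
  exact ⟨(hmain Γ X id (fun a b h => h) (fun a b c _ _ h => h)).2 (cay_deg S X hX), hmain⟩

end Pool.Agent.Results.MP_0a041d_co.CommutingPairs
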