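import Pool.Agent.Y365.LA.OddCay

set_option autoImplicit false

/-!
# Linear arboricity of Cayley graphs of odd degree whose generators have large order

`H931R3.LA.la G` is the linear arboricity (the same expression as in the frozen statement S07085).
-/

namespace Pool.Agent.Results.MP_0a041d_co.OddCayley

open SimpleGraph H931R3.LA

/-- The linear arboricity conjecture for Cayley graphs of odd degree.  Let `S` be the connection
set of a Cayley graph `G` of a finite group, `t ∈ S` an involution, and let the other elements of `S`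
be split into pairs `{s, σ s}` with `σ s = s⁻¹`, or with `s` and `σ s` two different involutions,
such that the subgroup generated by `s` and `σ s` has order at least `6 |S| - 14`.  Then `|S|` is odd
and the linear arboricity of `G` is `(|S| + 1) / 2`. -/
theorem result (Γ : Type) [Group Γ] [Finite Γ] (S : Finset Γ) (G : SimpleGraph Γ)
    (hG : ∀ g h, G.Adj g h ↔ g⁻¹ * h ∈ S) (t : Γ) (ht : t ∈ S) (htt : t * t = 1) (σ : Γ → Γ)
    (hσ : ∀ s ∈ S, s ≠ t → σ s ∈ S ∧ σ s ≠ t ∧ σ (σ s) = s ∧ σ s ≠ s ∧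
      (σ s = s⁻¹ ∨ (s⁻¹ = s ∧ (σ s)⁻¹ = σ s)))
    (hord : ∀ s ∈ S, s ≠ t →
      6 * S.card ≤ Nat.card (Subgroup.closure {s, σ s} : Subgroup Γ) + 14) :
    Odd S.card ∧ 2 * la G = S.card + 1 := by
  obtain ⟨h1, h2⟩ := Y365.LA.cay_odd_pair S G hG t ht σ htt hσ hord
  refine ⟨h2, ?_⟩
  have h3 : (S.card + 2) / 2 = S.card / 2 + 1 := by omega
  rw [← h3] at h1
  have h4 := Pool.Agent.W111.LAR.la_eq_of_cov (Finset.card_pos.2 ⟨t, ht⟩)
    (Pool.Agent.W111.LAR.cay_deg S G hG) h1
  rw [h4]
  obtain ⟨k, hk⟩ := h2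
  omega

end Pool.Agent.Results.MP_0a041d_co.OddCayley
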